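import Pool.Agent.T9h98.NK.SpecS

/-! # Not all vertices are of type C -/

set_option autoImplicit false

open Set
open scoped RealInnerProductSpace

namespace Pool.Agent.T9h91.NK

open Pool.Agent.T9h98.DC Pool.Agent.T9h44.NK Pool.Agent.T9h98.NK

theorem cor_symm {d : ℕ} {P : Set (E d)} {v w y : E d} (h : Cor P v w y) : Cor P v y w := by
  obtain ⟨h1, h2, h3, T, h4, h5, h6, h7, h8⟩ := h
  exact ⟨h2, h1, h3.symm, T, h4, h5, h6, h8, h7⟩

theorem len {d : ℕ} {v w y z : E d} {g α β : ℝ} (hvw : v ≠ w) (hvy : v ≠ y) (hα : 0 ≤ α)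
    (hβ : 0 < β) (hg0 : 0 < g) (hg1 : g < 1) (hz : z - v = α • (w - v) + β • (y - v))
    (h1 : ⟪w - v, y - v⟫ = g * (‖w - v‖ * ‖y - v‖))
    (h2 : ⟪v - w, z - w⟫ = g * (‖v - w‖ * ‖z - w‖)) : 2 * g * ‖z - w‖ ≤ ‖v - w‖ := by
  have hp : 0 < ‖w - v‖ := norm_pos_iff.mpr (sub_ne_zero.mpr hvw.symm)
  have hq : 0 < ‖y - v‖ := norm_pos_iff.mpr (sub_ne_zero.mpr hvy.symm)
  have hzw : z - w = (α - 1) • (w - v) + β • (y - v) := by
    linear_combination (norm := module) hz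
  have e1 : ‖v - w‖ = ‖w - v‖ := norm_sub_rev v w
  have e2 : ‖z - w‖ ^ 2 = (α - 1) ^ 2 * ‖w - v‖ ^ 2 +
      2 * ((α - 1) * (β * (g * (‖w - v‖ * ‖y - v‖)))) + β ^ 2 * ‖y - v‖ ^ 2 := by
    rw [hzw, norm_add_sq_real, norm_smul, norm_smul, inner_smul_left, inner_smul_right, h1,
      mul_pow, mul_pow, Real.norm_eq_abs, Real.norm_eq_abs, sq_abs, sq_abs]
    simp only [conj_trivial]
  have e3 : (1 - α) * ‖w - v‖ ^ 2 - β * (g * (‖w - v‖ * ‖y - v‖)) =
      g * (‖w - v‖ * ‖z - w‖) := by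
    have h := h2
    rw [e1, ← neg_sub w v, inner_neg_left] at h
    nth_rewrite 1 [hzw] at h
    rw [inner_add_right, inner_smul_right, inner_smul_right, h1, real_inner_self_eq_norm_sq] at h
    linarith
  set p := ‖w - v‖ with hpdef
  set q := ‖y - v‖ with hqdef
  set R := ‖z - w‖ with hRdef
  have hR : 0 ≤ R := norm_nonneg _
  rw [e1]
  -- `B = β q`, `A = (1 - α) p`
  have hB : 0 < β * q := mul_pos hβ hq
  have e4 : (1 - α) * p = g * (β * q + R) := by
    have h5 : p * ((1 - α) * p) = p * (g * (β * q + R)) := by linarith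
    exact mul_left_cancel₀ hp.ne' h5
  have e5 : R ^ 2 = ((1 - α) * p) ^ 2 - 2 * ((1 - α) * p) * (g * (β * q)) + (β * q) ^ 2 := by
    rw [e2]; ring
  have e6 : (R - β * q) * ((R + β * q) * (1 - g ^ 2)) = 0 := by
    rw [e4] at e5
    linear_combination e5
  have h7 : R = β * q := by
    rcases mul_eq_zero.mp e6 with h | h
    · linarith
    · exfalso
      rcases mul_eq_zero.mp h with h | h
      · linarith
      · nlinarith
  have h8 : 0 ≤ α * p := mul_nonneg hα hp.le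
  have h9 : (1 - α) * p = 2 * g * R := by rw [e4, ← h7]; ring
  linarith

theorem c2 : S_FACES → S_CONE → S_EDGE → S_MC → S_C2 := by
  rintro hF hCo hE hM D P hD hP ⟨v, hv⟩ hall
  have hvx : ∀ a b, Adj P a b → Vx P a ∧ Vx P b ∧ Adj P b a := fun a b hab => by
    have := (hF (D + 1) P hP.1).2.2.2.2.2.2.2.2.1 a b hab
    exact ⟨this.1, this.2.1, this.2.2.1⟩
  -- a neighbour of `v`
  have hnb : ∃ w, Adj P v w := by
    by_contra hcon
    push Not at hcon
    have hsub : P ⊆ {v} := by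
      intro x hx
      obtain ⟨S, c, h1, h2⟩ := hCo D P v hP hv x hx
      have hS : S = ∅ := by
        by_contra hne
        obtain ⟨y, hy⟩ := Finset.nonempty_iff_ne_empty.mpr hne
        exact hcon y (h1 y hy).1
      rw [hS, Finset.sum_empty, sub_eq_zero] at h2
      exact h2
    have h3 := hP.2.mono (interior_mono hsub)
    rw [interior_singleton] at h3
    exact not_nonempty_empty h3
  obtain ⟨w, hvw⟩ := hnb
  obtain ⟨g, hg⟩ := hall v hv
  obtain ⟨y, -, -, hcor, -⟩ := hg.two w hvw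
  obtain ⟨gw, hgw⟩ := hall w (hvx v w hvw).2.1
  have hD4 : (4 : ℝ) ≤ D := by exact_mod_cast hD
  have hghalf : 1 / 2 < g := by
    have h1 := hg.ggt
    have h2 : 2 / (D : ℝ) ≤ 1 / 2 := by
      rw [div_le_iff₀ (by linarith)]; linarith
    linarith
  have e1 : g = gw := ((hM D P (by omega) hP v w hvw) g 0 gw).2 hg hgw
  subst e1
  obtain ⟨z, hcz, ⟨α, β, hα, hβ, hz⟩, hlast⟩ := hE D P hP v w y hcor
  have hwz : Adj P w z := hcz.2.1
  obtain ⟨gz, hgz⟩ := hall z (hvx w z hwz).2.1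
  have e2 : g = gz := ((hM D P (by omega) hP w z hwz) g 0 gz).2 hgw hgz
  subst e2
  obtain ⟨u, hcu, ⟨α', β', -, -, hu⟩, -⟩ := hE D P hP w z v (cor_symm hcz)
  obtain ⟨t, hct, ⟨α'', β'', hα'', hβ'', ht⟩, -⟩ := hE D P hP z w u hcu
  have htv : t = v := by
    apply hlast t hct
    refine ⟨α'' * (1 - α) + β'' * (α' * (α - 1) - β' + (1 - α)) + α,
      -α'' * β + β'' * (α' * β - β) + β, ?_⟩
    linear_combination (norm := module) ht + β'' • hu + (1 - α'' + β'' * α' - β'') • hz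
  subst htv
  have l1 : 2 * g * ‖z - w‖ ≤ ‖t - w‖ :=
    len hvw.1 hcor.2.1.1 hα hβ (by linarith) hg.glt hz (hg.cor w y hcor)
      (hgw.cor t z hcz)
  have l2 : 2 * g * ‖t - w‖ ≤ ‖z - w‖ :=
    len (hvx w z hwz).2.2.1 hcu.2.1.1 hα'' hβ'' (by linarith) hg.glt ht (hgz.cor w u hcu)
      (hgw.cor z t hct)
  have hpos : 0 < ‖t - w‖ := norm_pos_iff.mpr (sub_ne_zero.mpr hvw.1)
  have k1 : 0 < (2 * g - 1) * ‖t - w‖ := mul_pos (by linarith) hpos
  have k2 : 0 < ‖z - w‖ := by linarith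
  have k3 : 0 < (2 * g - 1) * ‖z - w‖ := mul_pos (by linarith) k2
  linarith

end Pool.Agent.T9h91.NK
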