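import Pool.Agent.T9h44.NK.SpecA
import Pool.Agent.T9h44.NK.SpecB

/-! # The angles of a simple polytope with equal edges -/

set_option autoImplicit false

open Set
open scoped RealInnerProductSpace

namespace Pool.Agent.T9h91.NK

open Pool.Agent.T9h98.DC Pool.Agent.T9h44.NK

theorem kap_lt {d : ℕ} {x y : E d} {s κ : ℝ} (hs : 0 < s) (hx : ‖x‖ = s) (hy : ‖y‖ = s)
    (hxy : ⟪x, y⟫ = κ * s ^ 2) (hli : LinearIndependent ℝ ![x, y]) : κ ^ 2 < 1 := by
  have hn : ‖x - κ • y‖ ^ 2 = (1 - κ ^ 2) * s ^ 2 := by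
    rw [norm_sub_sq_real, norm_smul, inner_smul_right, hxy, hx, hy, mul_pow, Real.norm_eq_abs,
      sq_abs]
    ring
  have hne : x - κ • y ≠ 0 := by
    intro h
    have := (LinearIndependent.pair_iff.mp hli) 1 (-κ) (by rw [one_smul, neg_smul, ← sub_eq_add_neg, h])
    exact one_ne_zero this.1
  have hpos : 0 < ‖x - κ • y‖ ^ 2 := by positivity
  rw [hn] at hpos
  have hs2 : 0 < s ^ 2 := by positivity
  have := (pos_iff_pos_of_mul_pos hpos).mpr hs2
  linarith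

theorem core1 {κ κ' β γ β' γ' : ℝ} (h1 : γ + β * κ = -κ') (h1' : γ' + β' * κ = -κ')
    (h2 : γ ^ 2 + 2 * γ * β * κ + β ^ 2 = 1) (h2' : γ' ^ 2 + 2 * γ' * β' * κ + β' ^ 2 = 1)
    (hb : 0 ≤ β) (hb' : 0 ≤ β') (hk : κ ^ 2 < 1) (hk' : κ' ^ 2 < 1) :
    β = β' ∧ γ = γ' ∧ 0 < β ∧ β ^ 2 * (1 - κ ^ 2) = 1 - κ' ^ 2 := by
  have e1 : β ^ 2 * (1 - κ ^ 2) = 1 - κ' ^ 2 := by
    have : κ' ^ 2 = (γ + β * κ) ^ 2 := by rw [h1]; ring
    rw [this]; linarith [h2]
  have e2 : β' ^ 2 * (1 - κ ^ 2) = 1 - κ' ^ 2 := by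
    have : κ' ^ 2 = (γ' + β' * κ) ^ 2 := by rw [h1']; ring
    rw [this]; linarith [h2']
  have e3 : β ^ 2 = β' ^ 2 := by
    have h0 : (1 - κ ^ 2) ≠ 0 := by linarith
    exact mul_right_cancel₀ h0 (e1.trans e2.symm)
  have e4 : β = β' := by
    have := abs_eq_abs.mpr (sq_eq_sq_iff_eq_or_eq_neg.mp e3)
    rwa [abs_of_nonneg hb, abs_of_nonneg hb'] at this
  refine ⟨e4, by rw [e4] at h1; linarith, ?_, e1⟩
  rcases hb.eq_or_lt with h | h
  · exfalso
    rw [← h] at e1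
    nlinarith
  · exact h

theorem core2 {κ κ' β γ : ℝ} (h1 : γ + β * κ = -κ')
    (e1 : β ^ 2 * (1 - κ ^ 2) = 1 - κ' ^ 2)
    (h3 : γ * γ + γ * β * κ + β * γ * κ + β * β * κ = κ') (hk' : κ' ^ 2 < 1) : κ = κ' := by
  have hg : γ = -κ' - β * κ := by linarith
  have e2 : β ^ 2 * (κ * (1 - κ)) = κ' * (1 - κ') := by
    rw [hg] at h3; nlinarith
  have e3 : (1 - κ') * (κ - κ') = 0 := by
    have : β ^ 2 * (κ * (1 - κ)) * (1 + κ) = κ * (β ^ 2 * (1 - κ ^ 2)) := by ring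
    rw [e2, e1] at this
    nlinarith
  rcases mul_eq_zero.mp e3 with h | h
  · exfalso; nlinarith
  · linarith

/-- The third vertex of the 2-face `v, w, y`. -/
theorem third (hF : S_FACES) (hT : S_TWO) {d : ℕ} {P : Set (E (d + 1))} {s : ℝ}
    {κ : E (d + 1) → ℝ} (hP : IsPolytope P) (hS : Simp P s κ) {v w y : E (d + 1)}
    (hvw : Adj P v w) (hvy : Adj P v y) (hne : y ≠ w) :
    κ v ^ 2 < 1 ∧ κ w ^ 2 < 1 ∧ ∃ (z : E (d + 1)) (γ β : ℝ), 0 ≤ β ∧ Adj P w z ∧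
      z - w = γ • (w - v) + β • (y - v) ∧ γ + β * κ v = -κ w ∧
      γ ^ 2 + 2 * γ * β * κ v + β ^ 2 = 1 := by
  obtain ⟨hs, hE, -, hI⟩ := hS
  have hadj : ∀ a b, Adj P a b → Vx P a ∧ Vx P b ∧ Adj P b a := fun a b hab => by
    have := (hF (d + 1) P hP.1).2.2.2.2.2.2.2.2.1 a b hab
    exact ⟨this.1, this.2.1, this.2.2.1⟩
  have hnorm : ∀ a b, Adj P a b → ‖b - a‖ = s := fun a b hab => by
    rw [← dist_eq_norm, dist_comm]; exact hE a b hab
  obtain ⟨hiv, T, hTf, hTd, hvT, hyT, hwT⟩ := hI v y w hvy hvw hne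
  have hw := hadj v w hvw
  obtain ⟨a, b, hab, ha, hb, haT, hbT, hli, hnb, hcone, -, -⟩ := hT d P T v hP hw.1 hTf hTd hvT
  obtain ⟨a', b', hab', ha', hb', haT', hbT', hli', hnb', -, -, -⟩ :=
    hT d P T w hP hw.2.1 hTf hTd hwT
  have hk : ∀ (u p q : E (d + 1)), Adj P u p → Adj P u q → p ≠ q →
      LinearIndependent ℝ ![p - u, q - u] → κ u ^ 2 < 1 := fun u p q hp hq hpq hl =>
    kap_lt hs (hnorm u p hp) (hnorm u q hq) (hI u p q hp hq hpq).1 hl
  have hkv : κ v ^ 2 < 1 := hk v a b ha hb hab hli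
  have hkw : κ w ^ 2 < 1 := hk w a' b' ha' hb' hab' hli'
  refine ⟨hkv, hkw, ?_⟩
  -- the other neighbour of `w` in `T`
  have hz : ∃ z, Adj P w z ∧ z ≠ v ∧ z ∈ T := by
    rcases hnb' v hw.2.2 hvT with h | h
    · exact ⟨b', hb', by rw [h]; exact hab'.symm, hbT'⟩
    · exact ⟨a', ha', by rw [h]; exact hab', haT'⟩
  obtain ⟨z, hwz, hzv, hzT⟩ := hz
  have hc : ∃ α β : ℝ, 0 ≤ β ∧ z - v = α • (w - v) + β • (y - v) := by
    obtain ⟨α, β, hα, hβ, hzc⟩ := hcone z hzT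
    rcases hnb w hvw hwT with h | h <;> rcases hnb y hvy hyT with h' | h'
    · exact absurd (h'.trans h.symm) hne
    · exact ⟨α, β, hβ, by rw [h, h', hzc]⟩
    · exact ⟨β, α, hα, by rw [h, h', hzc]; exact add_comm _ _⟩
    · exact absurd (h'.trans h.symm) hne
  obtain ⟨α, β, hβ, hzc⟩ := hc
  have hzw : z - w = (α - 1) • (w - v) + β • (y - v) := by
    have : z - w = (z - v) - (w - v) := by abel
    rw [this, hzc]; module
  have hs2 : s ^ 2 ≠ 0 := by positivity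
  have i1 : ⟪w - v, w - v⟫ = s ^ 2 := by rw [real_inner_self_eq_norm_sq, hnorm v w hvw]
  have i2 : ⟪y - v, y - v⟫ = s ^ 2 := by rw [real_inner_self_eq_norm_sq, hnorm v y hvy]
  have i3 : ⟪y - v, w - v⟫ = κ v * s ^ 2 := hiv
  have i3' : ⟪w - v, y - v⟫ = κ v * s ^ 2 := by rw [real_inner_comm]; exact hiv
  have i4 : ⟪v - w, z - w⟫ = κ w * s ^ 2 := (hI w v z hw.2.2 hwz hzv.symm).1
  have i5 : ⟪z - w, z - w⟫ = s ^ 2 := by rw [real_inner_self_eq_norm_sq, hnorm w z hwz]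
  refine ⟨z, α - 1, β, hβ, hwz, hzw, ?_, ?_⟩
  · have h := i4
    rw [← neg_sub w v, inner_neg_left, hzw, inner_add_right, inner_smul_right, inner_smul_right,
      i1, i3'] at h
    apply mul_right_cancel₀ hs2
    linarith
  · have h := i5
    rw [hzw, inner_add_right, inner_add_left, inner_add_left, inner_smul_right, inner_smul_right,
      inner_smul_right, inner_smul_right, inner_smul_left, inner_smul_left, inner_smul_left,
      inner_smul_left, i1, i2, i3, i3'] at h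
    simp only [conj_trivial] at h
    apply mul_right_cancel₀ hs2
    linarith

theorem kap_adj (hF : S_FACES) (hT : S_TWO) {d : ℕ} {P : Set (E (d + 1))} {s : ℝ}
    {κ : E (d + 1) → ℝ} (hd : 2 ≤ d) (hP : IsPolytope P) (hS : Simp P s κ) {v w : E (d + 1)}
    (hvw : Adj P v w) : κ v = κ w := by
  classical
  have hS' := hS
  obtain ⟨hs, hE, hX, hI⟩ := hS
  have hadj : ∀ a b, Adj P a b → Vx P a ∧ Vx P b ∧ Adj P b a := fun a b hab => by
    have := (hF (d + 1) P hP.1).2.2.2.2.2.2.2.2.1 a b hab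
    exact ⟨this.1, this.2.1, this.2.2.1⟩
  have hnorm : ∀ a b, Adj P a b → ‖b - a‖ = s := fun a b hab => by
    rw [← dist_eq_norm, dist_comm]; exact hE a b hab
  obtain ⟨X, hXc, hXm⟩ := hX v (hadj v w hvw).1
  have hw : w ∈ X := (hXm w).mpr hvw
  have hcard : 1 < (X.erase w).card := by
    rw [Finset.card_erase_of_mem hw, hXc]; omega
  obtain ⟨y, hy, y', hy', hyy⟩ := Finset.one_lt_card.mp hcard
  have hy1 := Finset.mem_erase.mp hy
  have hy1' := Finset.mem_erase.mp hy'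
  have hvy : Adj P v y := (hXm y).mp hy1.2
  have hvy' : Adj P v y' := (hXm y').mp hy1'.2
  obtain ⟨hkv, hkw, z, γ, β, hβ, hwz, hz, h1, h2⟩ := third hF hT hP hS' hvw hvy hy1.1
  obtain ⟨-, -, z', γ', β', hβ', hwz', hz', h1', h2'⟩ := third hF hT hP hS' hvw hvy' hy1'.1
  obtain ⟨e1, e2, hpos, e3⟩ := core1 h1 h1' h2 h2' hβ hβ' hkv hkw
  subst e1 e2
  have hzz : z ≠ z' := by
    intro h
    rw [← h, hz] at hz'
    have h4 : β • (y - v) = β • (y' - v) := add_left_cancel hz'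
    have h5 : y - v = y' - v := smul_right_injective _ hpos.ne' h4
    exact hyy (sub_left_injective h5)
  have i6 : ⟪z - w, z' - w⟫ = κ w * s ^ 2 := (hI w z z' hwz hwz' hzz).1
  have hs2 : s ^ 2 ≠ 0 := by positivity
  have i1 : ⟪w - v, w - v⟫ = s ^ 2 := by rw [real_inner_self_eq_norm_sq, hnorm v w hvw]
  have i3 : ⟪y - v, w - v⟫ = κ v * s ^ 2 := (hI v y w hvy hvw hy1.1).1
  have i3' : ⟪w - v, y' - v⟫ = κ v * s ^ 2 := (hI v w y' hvw hvy' hy1'.1.symm).1
  have i4 : ⟪y - v, y' - v⟫ = κ v * s ^ 2 := (hI v y y' hvy hvy' hyy).1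
  refine core2 h1 e3 ?_ hkw
  rw [hz, hz', inner_add_right, inner_add_left, inner_add_left, inner_smul_right,
    inner_smul_right, inner_smul_right, inner_smul_right, inner_smul_left, inner_smul_left,
    inner_smul_left, inner_smul_left, i1, i3, i3', i4] at i6
  simp only [conj_trivial] at i6
  apply mul_right_cancel₀ hs2
  linarith

theorem ss1 : S_FACES → S_TWO → S_CONE → S_CONN → S_SS1 := by
  intro hF hT _ hC d P s κ hP hS
  have hPne : P.Nonempty := hP.2.mono interior_subset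
  obtain ⟨v0, hv0⟩ := ((hF (d + 5) P hP.1).2.2.2.2.1 hPne).2
  have hconst : ∀ v, Vx P v → κ v = κ v0 := by
    intro v hv
    refine hC (d + 4) P hP {v | κ v = κ v0} ⟨v0, rfl, hv0⟩ ?_ v hv
    intro a ha b _ hab
    exact (kap_adj (d := d + 4) hF hT (by omega) hP hS hab).symm.trans ha
  refine ⟨κ v0, ?_, hconst⟩
  obtain ⟨hs, hE, hX, hI⟩ := hS
  obtain ⟨X, hXc, hXm⟩ := hX v0 hv0
  have hnorm : ∀ a b, Adj P a b → ‖b - a‖ = s := fun a b hab => by
    rw [← dist_eq_norm, dist_comm]; exact hE a b hab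
  -- the sum of the edge vectors is not zero
  have hne : ∑ y ∈ X, (y - v0) ≠ 0 := by
    obtain ⟨l, hl⟩ := hv0.2 (singleton_nonempty v0)
    have hlt : ∀ y ∈ X, l (y - v0) < 0 := by
      intro y hy
      have hadj := (hXm y).mp hy
      have hyV : Vx P y := ((hF (d + 5) P hP.1).2.2.2.2.2.2.2.2.1 v0 y hadj).2.1
      have hyP : y ∈ P := hyV.2.subset rfl
      have hv : v0 ∈ {x ∈ P | ∀ y ∈ P, l y ≤ l x} := by rw [← hl]; rfl
      have hle := hv.2 y hyP
      rw [map_sub]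
      rcases hle.eq_or_lt with h | h
      · exfalso
        have : y ∈ ({v0} : Set (E (d + 5))) := by
          rw [hl]
          exact ⟨hyP, fun x hx => by rw [h]; exact hv.2 x hx⟩
        exact hadj.1 (mem_singleton_iff.mp this).symm
      · linarith
    intro h0
    have hXne : X.Nonempty := by
      rw [← Finset.card_pos, hXc]; omega
    have : l (∑ y ∈ X, (y - v0)) < 0 := by
      rw [map_sum]
      exact Finset.sum_neg hlt hXne
    rw [h0, map_zero] at this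
    exact lt_irrefl _ this
  have hpos : 0 < ⟪∑ y ∈ X, (y - v0), ∑ y ∈ X, (y - v0)⟫ := by
    rw [real_inner_self_eq_norm_sq]; positivity
  have hsum : ⟪∑ y ∈ X, (y - v0), ∑ y ∈ X, (y - v0)⟫ =
      ((d : ℝ) + 5) * (1 + ((d : ℝ) + 4) * κ v0) * s ^ 2 := by
    classical
    rw [sum_inner]
    have : ∀ y ∈ X, ⟪y - v0, ∑ y ∈ X, (y - v0)⟫ = (1 + ((d : ℝ) + 4) * κ v0) * s ^ 2 := by
      intro y hy
      rw [inner_sum, ← Finset.add_sum_erase X _ hy]
      have h1 : ⟪y - v0, y - v0⟫ = s ^ 2 := by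
        rw [real_inner_self_eq_norm_sq, hnorm v0 y ((hXm y).mp hy)]
      have h2 : ∑ x ∈ X.erase y, ⟪y - v0, x - v0⟫ = ∑ x ∈ X.erase y, κ v0 * s ^ 2 := by
        refine Finset.sum_congr rfl fun x hx => ?_
        have hx' := Finset.mem_erase.mp hx
        exact (hI v0 y x ((hXm y).mp hy) ((hXm x).mp hx'.2) hx'.1.symm).1
      rw [h1, h2, Finset.sum_const, Finset.card_erase_of_mem hy, hXc, nsmul_eq_mul]
      push_cast [show d + 5 - 1 = d + 4 by omega]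
      ring
    rw [Finset.sum_congr rfl this, Finset.sum_const, hXc, nsmul_eq_mul]
    push_cast
    ring
  rw [hsum] at hpos
  have hs2 : 0 < s ^ 2 := by positivity
  have hd5 : (0 : ℝ) < (d : ℝ) + 5 := by positivity
  have h6 : 0 < 1 + ((d : ℝ) + 4) * κ v0 := by
    by_contra hcon
    push Not at hcon
    have : ((d : ℝ) + 5) * (1 + ((d : ℝ) + 4) * κ v0) * s ^ 2 ≤ 0 :=
      mul_nonpos_of_nonpos_of_nonneg (mul_nonpos_of_nonneg_of_nonpos hd5.le hcon) hs2.le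
    linarith
  by_contra hcon
  push Not at hcon
  have hd0 : (0 : ℝ) ≤ d := Nat.cast_nonneg d
  nlinarith

end Pool.Agent.T9h91.NK
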