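import Pool.Agent.T9h44.NK.Abs4

/-! # Slope 4, piece X1 -/

set_option autoImplicit false

open Set
open scoped RealInnerProductSpace

namespace Pool.Agent.T9h91.NK

open Pool.Agent.T9h98.DC Pool.Agent.T9h44.NK

open Classical in
theorem pw {m : ℕ} {q : ℝ} {X : Finset (E m)} (hX : Cfg q X) {u v : E m} (hu : u ∈ X)
    (hv : v ∈ X) : ⟪u, v⟫ ≤ q + (if v = u then 1 - q else 0) -
      (if v ∈ UU q X u then 1 - q else 0) := by
  by_cases h : v = u
  · have h1 : v ∉ UU q X u := by
      unfold UU
      rw [Finset.mem_filter]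
      exact fun hh => hh.2.1 h
    rw [if_pos h, if_neg h1, h, real_inner_self_eq_norm_sq, hX.1 u hu]
    linarith
  · rw [if_neg h]
    by_cases h2 : ⟪u, v⟫ ≤ 2 * q - 1
    · have h1 : v ∈ UU q X u := by
        unfold UU
        rw [Finset.mem_filter]
        exact ⟨hv, h, h2⟩
      rw [if_pos h1]
      linarith
    · have h1 : v ∉ UU q X u := by
        unfold UU
        rw [Finset.mem_filter]
        exact fun hh => h2 hh.2.2
      rw [if_neg h1]
      rcases hX.2.1 u hu v hv (Ne.symm h) with h3 | h3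
      · linarith
      · exact absurd h3 h2

open Classical in
theorem x1 : S_X1 := by
  intro m q X hq0 hq1 hX x hx
  have hUX : UU q X x ⊆ X := by unfold UU; exact Finset.filter_subset _ _
  have hdisj : Disjoint (AA q X x) (UU q X x) := by
    rw [Finset.disjoint_left]
    intro y hy hy'
    unfold AA at hy
    unfold UU at hy'
    rw [Finset.mem_filter] at hy hy'
    have h1 := hy.2.2
    have h2 := hy'.2.2
    rw [h1] at h2
    linarith
  have herase : X.erase x = AA q X x ∪ UU q X x := by
    ext y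
    unfold AA UU
    rw [Finset.mem_erase, Finset.mem_union, Finset.mem_filter, Finset.mem_filter]
    constructor
    · rintro ⟨h1, h2⟩
      rcases hX.2.1 x hx y h2 h1.symm with h3 | h3
      · exact Or.inl ⟨h2, h1, h3⟩
      · exact Or.inr ⟨h2, h1, h3⟩
    · rintro (h | h)
      · exact ⟨h.2.1, h.1⟩
      · exact ⟨h.2.1, h.1⟩
  have hsum : x + (∑ u ∈ AA q X x, u + ∑ u ∈ UU q X x, u) = 0 := by
    rw [← Finset.sum_union hdisj, ← herase, Finset.add_sum_erase X (fun u => u) hx]
    exact hX.2.2
  have hA : ⟪x, ∑ u ∈ AA q X x, u⟫ = (AA q X x).card * q := by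
    rw [inner_sum, Finset.sum_congr rfl (g := fun _ => q), Finset.sum_const, nsmul_eq_mul]
    intro u hu
    unfold AA at hu
    exact (Finset.mem_filter.mp hu).2.2
  have h3 : ⟪x, ∑ u ∈ UU q X x, u⟫ = -(1 + (AA q X x).card * q) := by
    have h := congrArg (fun y => ⟪x, y⟫) hsum
    simp only [inner_add_right, inner_zero_right] at h
    rw [hA, real_inner_self_eq_norm_sq, hX.1 x hx] at h
    linarith
  refine ⟨?_, ?_, h3, ?_⟩
  · rw [← Finset.card_union_of_disjoint hdisj, ← herase, Finset.card_erase_add_one hx]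
  · have h4 : ⟪x, ∑ u ∈ UU q X x, u⟫ ≤ (UU q X x).card * (2 * q - 1) := by
      rw [inner_sum, ← nsmul_eq_mul, ← Finset.sum_const]
      refine Finset.sum_le_sum fun u hu => ?_
      unfold UU at hu
      exact (Finset.mem_filter.mp hu).2.2
    rw [h3] at h4
    linarith
  · rw [← real_inner_self_eq_norm_sq, sum_inner]
    have h5 : ∀ u ∈ UU q X x, ⟪u, ∑ v ∈ UU q X x, v⟫ ≤
        ((UU q X x).card : ℝ) * q + (1 - q) - ((UU q X u ∩ UU q X x).card : ℝ) * (1 - q) := by
      intro u hu
      rw [inner_sum]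
      refine (Finset.sum_le_sum fun v hv => pw hX (hUX hu) (hUX hv)).trans (le_of_eq ?_)
      rw [Finset.sum_sub_distrib, Finset.sum_add_distrib, Finset.sum_const, nsmul_eq_mul,
        Finset.sum_ite_eq' (UU q X x) u (fun _ => 1 - q), if_pos hu,
        Finset.sum_ite_mem, Finset.sum_const, nsmul_eq_mul, Finset.inter_comm]
    refine (Finset.sum_le_sum h5).trans (le_of_eq ?_)
    rw [Finset.sum_sub_distrib, Finset.sum_const, nsmul_eq_mul, ← Finset.sum_mul]
    unfold ee
    push_cast
    ring

end Pool.Agent.T9h91.NK
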